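import Pool.Agent.H97.NF.Targets
import Pool.Agent.H22.LPP.Prob
import Pool.Agent.H20.GL.GEO

/-!
# Module OVL: influence versus overlap
-/

open MeasureTheory ProbabilityTheory Filter Topology
open scoped ENNReal

namespace Pool.Agent.H10.NF.OVL

open Pool.Agent.H99.NS Pool.Agent.H22.LPP Pool.Agent.H97.NF

/-! ### Deterministic part -/

theorem wt_update (ω : Env) (x : Site) (k : ℕ) (s t : ℤ) (γ : ℤ → ℤ) :
    wt (Function.update ω x k) s t γ = wt (Function.update ω x 0) s t γ +
      (if s < x.1 ∧ x.1 ≤ t ∧ γ x.1 = x.2 then (k : ℝ) else 0) := by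
  classical
  unfold wt
  have h : ∀ r ∈ Finset.Ioc s t, ((Function.update ω x k (r, γ r) : ℕ) : ℝ) =
      ((Function.update ω x 0 (r, γ r) : ℕ) : ℝ) +
        (if r = x.1 then (if γ x.1 = x.2 then (k : ℝ) else 0) else 0) := by
    intro r _
    by_cases h1 : r = x.1
    · rw [if_pos h1]
      by_cases h2 : γ x.1 = x.2
      · rw [if_pos h2]
        have : (r, γ r) = x := by
          apply Prod.ext
          · exact h1
          · simp only [h1, h2]
        rw [this, Function.update_self, Function.update_self]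
        simp
      · rw [if_neg h2]
        have : (r, γ r) ≠ x := by
          intro h3
          apply h2
          rw [← h1]
          exact congrArg Prod.snd h3
        rw [Function.update_of_ne this, Function.update_of_ne this]
        simp
    · rw [if_neg h1]
      have : (r, γ r) ≠ x := fun h3 => h1 (congrArg Prod.fst h3)
      rw [Function.update_of_ne this, Function.update_of_ne this]
      simp
  rw [Finset.sum_congr rfl h, Finset.sum_add_distrib]
  congr 1
  rw [Finset.sum_ite_eq']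
  by_cases h1 : s < x.1 ∧ x.1 ≤ t
  · rw [if_pos (Finset.mem_Ioc.2 h1)]
    by_cases h2 : γ x.1 = x.2
    · rw [if_pos h2, if_pos ⟨h1.1, h1.2, h2⟩]
    · rw [if_neg h2, if_neg (fun h => h2 h.2.2)]
  · rw [if_neg (fun h => h1 (Finset.mem_Ioc.1 h)), if_neg (fun h => h1 ⟨h.1, h.2.1⟩)]

theorem reach_dom {n : ℕ} {x : Site} (hx : x ∈ domN n) :
    0 < x.1 ∧ Reach (0, 0) x ∧ Reach x (2 * (n : ℤ), 0) := by
  unfold domN at hx
  simp only [Finset.mem_filter, Finset.mem_product, Finset.mem_Icc] at hx
  obtain ⟨⟨⟨h1, h2⟩, h3, h4⟩, h5, h6, h7⟩ := hx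
  refine ⟨by omega, ⟨?_, ?_⟩, ⟨?_, ?_⟩⟩
  · simpa using h5
  · simp only [sub_zero]
    exact Int.even_iff.2 h7
  · simp only [zero_sub, abs_neg]
    exact h6
  · simp only
    rw [Int.even_iff]
    omega

/-- The part of the passage time through `x` which does not use the weight of `x`. -/
noncomputable def uu (n : ℕ) (x : Site) (ω : Env) : ℝ :=
  T (Function.update ω x 0) (0, 0) x + T (Function.update ω x 0) x (2 * (n : ℤ), 0)

theorem T_to (ω : Env) {n : ℕ} {x : Site} (hx : x ∈ domN n) (k : ℕ) :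
    T (Function.update ω x k) (0, 0) x = T (Function.update ω x 0) (0, 0) x + k := by
  obtain ⟨h0, h1, h2⟩ := reach_dom hx
  have key : ∀ γ, Conn (0, 0) x γ →
      wt (Function.update ω x k) 0 x.1 γ = wt (Function.update ω x 0) 0 x.1 γ + k := by
    intro γ hγ
    rw [wt_update, if_pos ⟨h0, le_rfl, hγ.2.2⟩]
  apply le_antisymm
  · refine T_le _ h1 fun γ hγ => ?_
    have := key γ hγ
    simp only at this ⊢
    rw [this]
    have := le_T (Function.update ω x 0) (reach_le h1) hγ
    simp only at this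
    linarith
  · obtain ⟨γ, hγ, h3, _⟩ := T_attained (Function.update ω x 0) h1
    have h4 := le_T (Function.update ω x k) (reach_le h1) hγ
    have h5 := key γ hγ
    simp only at h3 h4
    rw [h3]
    linarith

theorem T_from (ω : Env) (n : ℕ) (x : Site) (k : ℕ) :
    T (Function.update ω x k) x (2 * (n : ℤ), 0) =
      T (Function.update ω x 0) x (2 * (n : ℤ), 0) := by
  apply T_congr
  rintro y ⟨hy, _, _⟩
  have : y ≠ x := by
    rintro rfl
    exact lt_irrefl _ hy
  rw [Function.update_of_ne this, Function.update_of_ne this]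

theorem ff_update (ω : Env) {n : ℕ} {x : Site} (hx : x ∈ domN n) (k : ℕ) :
    ff n (Function.update ω x k) = max (ff n (Function.update ω x 0)) (uu n x ω + k) := by
  obtain ⟨h0, h1, h2⟩ := reach_dom hx
  have h12 : Reach (0, 0) (2 * (n : ℤ), 0) := reach_trans h1 h2
  unfold ff uu
  apply le_antisymm
  · refine T_le _ h12 fun γ hγ => ?_
    rw [wt_update]
    split_ifs with h
    · refine le_trans ?_ (le_max_right _ _)
      obtain ⟨h3, h4, h5⟩ := h
      simp only at h3 h4 ⊢
      rw [wt_add (Function.update ω x 0) h3.le h4]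
      have e : ((x.1, γ x.1) : Site) = x := Prod.ext rfl h5
      have h6 := le_T (Function.update ω x 0) (reach_le h1) (e ▸ hγ.left (t := x.1) h4)
      have h7 := le_T (Function.update ω x 0) (reach_le h2) (e ▸ hγ.right (s := x.1) h3.le)
      simp only at h6 h7
      linarith
    · refine le_trans ?_ (le_max_left _ _)
      rw [add_zero]
      exact le_T _ (reach_le h12) hγ
  · apply max_le
    · apply T_mono
      intro y _
      by_cases h : y = x
      · subst h; simp
      · rw [Function.update_of_ne h, Function.update_of_ne h]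
    · have h3 := T_superadd (Function.update ω x k) h1 h2
      rw [T_to ω hx k, T_from ω n x k] at h3
      linarith

theorem exists_s (ω : Env) {n : ℕ} {x : Site} (hx : x ∈ domN n) :
    ∃ s : ℕ, ff n (Function.update ω x 0) = uu n x ω + s := by
  obtain ⟨h0, h1, h2⟩ := reach_dom hx
  obtain ⟨a, ha⟩ := T_nat (Function.update ω x 0) (0, 0) (2 * (n : ℤ), 0)
  obtain ⟨b, hb⟩ := T_nat (Function.update ω x 0) (0, 0) x
  obtain ⟨c, hc⟩ := T_nat (Function.update ω x 0) x (2 * (n : ℤ), 0)
  have h3 := T_superadd (Function.update ω x 0) h1 h2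
  unfold ff uu
  rw [ha, hb, hc] at *
  have h4 : b + c ≤ a := by exact_mod_cast h3
  obtain ⟨s, rfl⟩ := Nat.exists_eq_add_of_le h4
  exact ⟨s, by push_cast; ring⟩

/-- The threshold: `x` is on a geodesic iff its weight is at least `ss`. -/
noncomputable def ss (n : ℕ) (x : Site) (ω : Env) (hx : x ∈ domN n) : ℕ :=
  Classical.choose (exists_s ω hx)

theorem ff_eq (ω : Env) {n : ℕ} {x : Site} (hx : x ∈ domN n) (k : ℕ) :
    ff n (Function.update ω x k) = uu n x ω + ((max (ss n x ω hx) k : ℕ) : ℝ) := by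
  rw [ff_update ω hx k, Classical.choose_spec (exists_s ω hx)]
  unfold ss
  push_cast
  rw [max_add_add_left]

theorem onGeo_iff (ω : Env) {n : ℕ} {x : Site} (hx : x ∈ domN n) (k : ℕ) :
    OnGeo n (Function.update ω x k) x ↔ ss n x ω hx ≤ k := by
  have h1 := ff_eq ω hx k
  unfold OnGeo
  unfold ff at h1
  rw [T_to ω hx k, T_from ω n x k, h1]
  unfold uu
  constructor
  · intro h
    have h2 : (k : ℝ) = ((max (ss n x ω hx) k : ℕ) : ℝ) := by linarith
    have h3 : k = max (ss n x ω hx) k := by exact_mod_cast h2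
    rw [h3]
    exact le_max_left _ _
  · intro h
    rw [max_eq_right h]
    ring

/-! ### One site -/

theorem cov_lower (q : ℝ) (hq0 : 0 < q) (hq1 : q < 1) (hGMO : T_GMO) (s s' : ℕ) (c c' : ℝ) :
    Integrable (fun k : ℕ => c + ((max s k : ℕ) : ℝ)) (geo q) ∧
    Integrable (fun k : ℕ => (c + ((max s k : ℕ) : ℝ)) * (c' + ((max s' k : ℕ) : ℝ))) (geo q) ∧
    q * (1 - q) * q ^ (max s s') ≤
      ∫ k : ℕ, (c + ((max s k : ℕ) : ℝ)) * (c' + ((max s' k : ℕ) : ℝ)) ∂(geo q) -
        (∫ k : ℕ, (c + ((max s k : ℕ) : ℝ)) ∂(geo q)) *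
          (∫ k : ℕ, (c' + ((max s' k : ℕ) : ℝ)) ∂(geo q)) := by
  classical
  set m := max s s' with hm
  have i1 : Integrable (fun k : ℕ => (k : ℝ)) (geo q) := by
    have := hGMO q hq0.le hq1 1
    simpa using this
  have i2 : Integrable (fun k : ℕ => (k : ℝ) ^ 2) (geo q) := hGMO q hq0.le hq1 2
  have meas : ∀ f : ℕ → ℝ, AEStronglyMeasurable f (geo q) := fun f =>
    (measurable_of_countable f).aestronglyMeasurable
  have ia : ∀ (s : ℕ) (c : ℝ), Integrable (fun k : ℕ => c + ((max s k : ℕ) : ℝ)) (geo q) := by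
    intro s c
    refine Integrable.add (integrable_const c) ?_
    refine Integrable.mono' ((integrable_const (s : ℝ)).add i1) (meas _) (ae_of_all _ fun k => ?_)
    rw [Real.norm_eq_abs, abs_of_nonneg (Nat.cast_nonneg _)]
    simp only [Pi.add_apply]
    have : max s k ≤ s + k := by omega
    exact_mod_cast this
  have iab : Integrable
      (fun k : ℕ => (c + ((max s k : ℕ) : ℝ)) * (c' + ((max s' k : ℕ) : ℝ))) (geo q) := by
    refine Integrable.mono' (g := fun k : ℕ => (|c| + s) * (|c'| + s') +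
      ((|c| + s) + (|c'| + s')) * (k : ℝ) + (k : ℝ) ^ 2)
      (((integrable_const _).add (i1.const_mul _)).add i2) (meas _) (ae_of_all _ fun k => ?_)
    rw [Real.norm_eq_abs, abs_mul]
    have b1 : ∀ (c : ℝ) (s : ℕ), |c + ((max s k : ℕ) : ℝ)| ≤ |c| + s + k := by
      intro c s
      have h1 : |c + ((max s k : ℕ) : ℝ)| ≤ |c| + |((max s k : ℕ) : ℝ)| := abs_add_le _ _
      have h0 : |((max s k : ℕ) : ℝ)| = ((max s k : ℕ) : ℝ) := abs_of_nonneg (Nat.cast_nonneg _)
      rw [h0] at h1
      have : max s k ≤ s + k := by omega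
      have h2 : ((max s k : ℕ) : ℝ) ≤ s + k := by exact_mod_cast this
      linarith
    have h1 := mul_le_mul (b1 c s) (b1 c' s') (abs_nonneg _)
      ((abs_nonneg _).trans (b1 c s))
    refine h1.trans (le_of_eq ?_)
    ring
  refine ⟨ia s c, iab, ?_⟩
  -- symmetrised covariance
  set a : ℕ → ℝ := fun k => c + ((max s k : ℕ) : ℝ) with ha
  set b : ℕ → ℝ := fun k => c' + ((max s' k : ℕ) : ℝ) with hb
  set h : ℕ → ℝ := fun k => if m + 1 ≤ k then 1 else 0 with hh
  have ih : Integrable h (geo q) := by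
    refine Integrable.mono' (integrable_const (1 : ℝ)) (meas _) (ae_of_all _ fun k => ?_)
    simp only [hh]
    split_ifs <;> simp
  have ihh : Integrable (fun k => h k * h k) (geo q) := by
    have : (fun k => h k * h k) = h := by
      funext k
      simp only [hh]
      split_ifs <;> simp
    rw [this]
    exact ih
  have sym : ∀ (f g : ℕ → ℝ), Integrable f (geo q) → Integrable g (geo q) →
      Integrable (fun k => f k * g k) (geo q) →
      Integrable (fun p : ℕ × ℕ => (f p.1 - f p.2) * (g p.1 - g p.2)) ((geo q).prod (geo q)) ∧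
      ∫ p : ℕ × ℕ, (f p.1 - f p.2) * (g p.1 - g p.2) ∂((geo q).prod (geo q)) =
        2 * (∫ k, f k * g k ∂(geo q) - (∫ k, f k ∂(geo q)) * (∫ k, g k ∂(geo q))) := by
    intro f g hf hg hfg
    have e1 : (fun p : ℕ × ℕ => (f p.1 - f p.2) * (g p.1 - g p.2)) =
        fun p : ℕ × ℕ => ((f p.1 * g p.1 + f p.2 * g p.2) - f p.1 * g p.2) - g p.1 * f p.2 := by
      funext p; ring
    have j1 : Integrable (fun p : ℕ × ℕ => f p.1 * g p.1) ((geo q).prod (geo q)) :=
      hfg.comp_fst (geo q)
    have j2 : Integrable (fun p : ℕ × ℕ => f p.2 * g p.2) ((geo q).prod (geo q)) :=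
      hfg.comp_snd (geo q)
    have j3 : Integrable (fun p : ℕ × ℕ => f p.1 * g p.2) ((geo q).prod (geo q)) :=
      hf.mul_prod hg
    have j4 : Integrable (fun p : ℕ × ℕ => g p.1 * f p.2) ((geo q).prod (geo q)) :=
      hg.mul_prod hf
    rw [e1]
    refine ⟨((j1.add j2).sub j3).sub j4, ?_⟩
    have k1 : ∫ p : ℕ × ℕ, f p.1 * g p.1 ∂((geo q).prod (geo q)) = ∫ k, f k * g k ∂(geo q) := by
      have := integral_fun_fst (μ := geo q) (ν := geo q) (fun k => f k * g k)
      rw [this]
      simp
    have k2 : ∫ p : ℕ × ℕ, f p.2 * g p.2 ∂((geo q).prod (geo q)) = ∫ k, f k * g k ∂(geo q) := by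
      have := integral_fun_snd (μ := geo q) (ν := geo q) (fun k => f k * g k)
      rw [this]
      simp
    have t1 : ∫ p : ℕ × ℕ, ((f p.1 * g p.1 + f p.2 * g p.2) - f p.1 * g p.2) - g p.1 * f p.2
        ∂((geo q).prod (geo q)) =
        (∫ p : ℕ × ℕ, ((f p.1 * g p.1 + f p.2 * g p.2) - f p.1 * g p.2)
          ∂((geo q).prod (geo q))) - ∫ p : ℕ × ℕ, g p.1 * f p.2 ∂((geo q).prod (geo q)) :=
      integral_sub ((j1.add j2).sub j3) j4
    have t2 : ∫ p : ℕ × ℕ, ((f p.1 * g p.1 + f p.2 * g p.2) - f p.1 * g p.2)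
          ∂((geo q).prod (geo q)) =
        (∫ p : ℕ × ℕ, (f p.1 * g p.1 + f p.2 * g p.2) ∂((geo q).prod (geo q))) -
          ∫ p : ℕ × ℕ, f p.1 * g p.2 ∂((geo q).prod (geo q)) :=
      integral_sub (j1.add j2) j3
    have t3 : ∫ p : ℕ × ℕ, (f p.1 * g p.1 + f p.2 * g p.2) ∂((geo q).prod (geo q)) =
        (∫ p : ℕ × ℕ, f p.1 * g p.1 ∂((geo q).prod (geo q))) +
          ∫ p : ℕ × ℕ, f p.2 * g p.2 ∂((geo q).prod (geo q)) :=
      integral_add j1 j2
    rw [t1, t2, t3, k1, k2, integral_prod_mul, integral_prod_mul]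
    ring
  obtain ⟨l1, l2⟩ := sym a b (ia s c) (ia s' c') iab
  obtain ⟨l3, l4⟩ := sym h h ih ih ihh
  have hle : ∫ p : ℕ × ℕ, (h p.1 - h p.2) * (h p.1 - h p.2) ∂((geo q).prod (geo q)) ≤
      ∫ p : ℕ × ℕ, (a p.1 - a p.2) * (b p.1 - b p.2) ∂((geo q).prod (geo q)) := by
    refine integral_mono l3 l1 fun p => ?_
    obtain ⟨k, l⟩ := p
    have main : ∀ k l : ℕ, l ≤ k →
        (h k - h l) * (h k - h l) ≤ (a k - a l) * (b k - b l) := by
      intro k l hkl
      have n1 : ∀ (s : ℕ) (c : ℝ), s ≤ m → 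
          h k - h l ≤ (c + ((max s k : ℕ) : ℝ)) - (c + ((max s l : ℕ) : ℝ)) := by
        intro s c hs
        have hmono : max s l ≤ max s k := by omega
        have hmono' : ((max s l : ℕ) : ℝ) ≤ ((max s k : ℕ) : ℝ) := by exact_mod_cast hmono
        simp only [hh]
        by_cases h1 : m + 1 ≤ l
        · rw [if_pos h1, if_pos (by omega)]
          linarith
        · rw [if_neg h1]
          by_cases h2 : m + 1 ≤ k
          · rw [if_pos h2]
            have : max s l + 1 ≤ max s k := by omega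
            have : ((max s l : ℕ) : ℝ) + 1 ≤ ((max s k : ℕ) : ℝ) := by exact_mod_cast this
            linarith
          · rw [if_neg h2]
            linarith
      have n0 : 0 ≤ h k - h l := by
        simp only [hh]
        by_cases h1 : m + 1 ≤ l
        · rw [if_pos h1, if_pos (by omega)]
          simp
        · rw [if_neg h1]
          split_ifs <;> simp
      have hsm : s ≤ m := by rw [hm]; exact le_max_left _ _
      have hsm' : s' ≤ m := by rw [hm]; exact le_max_right _ _
      exact mul_le_mul (n1 s c hsm) (n1 s' c' hsm') n0 (n0.trans (n1 s c hsm))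
    simp only
    rcases le_total l k with h1 | h1
    · exact main k l h1
    · have := main l k h1
      have e1 : (h k - h l) * (h k - h l) = (h l - h k) * (h l - h k) := by ring
      have e2 : (a k - a l) * (b k - b l) = (a l - a k) * (b l - b k) := by ring
      rw [e1, e2]
      exact this
  rw [l2, l4] at hle
  have hint : ∫ k, h k ∂(geo q) = q ^ (m + 1) := by
    have e : h = Set.indicator {k : ℕ | m + 1 ≤ k} (fun _ => (1 : ℝ)) := by
      funext k
      simp only [hh, Set.indicator_apply, Set.mem_ofPred_eq]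
    rw [e, integral_indicator_const _ (MeasurableSet.of_discrete), smul_eq_mul, mul_one,
      Measure.real, Pool.Agent.H20.GL.GEO.tail_nat q hq0.le hq1,
      ENNReal.toReal_ofReal (by positivity)]
  have hint2 : ∫ k, h k * h k ∂(geo q) = q ^ (m + 1) := by
    have : (fun k => h k * h k) = h := by
      funext k
      simp only [hh]
      split_ifs <;> simp
    rw [this, hint]
  rw [hint, hint2] at hle
  have hp : 0 ≤ q ^ m := by positivity
  have hp1 : q ^ m ≤ 1 := pow_le_one₀ hq0.le hq1.le
  have : q * (1 - q) * q ^ m ≤ q ^ (m + 1) - q ^ (m + 1) * q ^ (m + 1) := by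
    rw [pow_succ]
    have h1 : 0 ≤ q * q ^ m * (q * (1 - q ^ m)) := by
      apply mul_nonneg (by positivity)
      exact mul_nonneg hq0.le (by linarith)
    nlinarith
  linarith

/-! ### Assembly -/

theorem pf_OVL (hGMO : T_GMO) (hNIC : T_NIC) (hINT : T_INT) (hUPD : T_UPD) (hPLI : T_PLI) :
    T_OVL := by
  classical
  intro q hq0 hq1 n x hx ρ hρ
  set P := PN q ρ with hP
  set L := pairLaw q (ρ x) with hL
  have hmp : MeasurePreserving (fun p : PEnv × (ℕ × ℕ) => Function.update p.1 x p.2)
      (P.prod L) P := by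
    have := hUPD q ρ x (ρ x)
    rw [Function.update_eq_self] at this
    exact this
  have eAu : ∀ (E : PEnv) (e : ℕ × ℕ), eA (Function.update E x e) =
      Function.update (eA E) x e.1 := by
    intro E e
    funext y
    unfold eA
    by_cases h : y = x
    · subst h; simp
    · rw [Function.update_of_ne h, Function.update_of_ne h]
  have eBu : ∀ (E : PEnv) (e : ℕ × ℕ), eB (Function.update E x e) =
      Function.update (eB E) x e.2 := by
    intro E e
    funext y
    unfold eB
    by_cases h : y = x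
    · subst h; simp
    · rw [Function.update_of_ne h, Function.update_of_ne h]
  obtain ⟨nic1, _, _, _, _, nic6, nic7⟩ := hNIC
  have hD : Nice (domN n) (Dx q x (ff n)) := nic6 q hq0.le hq1 _ _ x (nic7 n)
  have hDint := (hINT q hq0.le hq1 _ _ _ hD hD).1 ρ
  set Gd : PEnv → ℝ := fun E => Dx q x (ff n) (eA E) * Dx q x (ff n) (eB E) with hGd
  have hGint : Integrable Gd P := hDint.1
  -- the event
  set S : Set PEnv := {E | OnGeo n (eA E) x ∧ OnGeo n (eB E) x} with hS
  have meA : Measurable eA := by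
    refine measurable_pi_lambda _ fun y => ?_
    exact measurable_fst.comp (measurable_pi_apply y)
  have meB : Measurable eB := by
    refine measurable_pi_lambda _ fun y => ?_
    exact measurable_snd.comp (measurable_pi_apply y)
  have hSg : MeasurableSet {ω : Env | OnGeo n ω x} := by
    unfold OnGeo
    exact measurableSet_eq_fun ((measurable_T _ _).add (measurable_T _ _)) (measurable_T _ _)
  have hSm : MeasurableSet S := (meA hSg).inter (meB hSg)
  set I : PEnv → ℝ := S.indicator (fun _ => (1 : ℝ)) with hI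
  have hIint : Integrable I P := (integrable_const (1 : ℝ)).indicator hSm
  have hIeq : P.real S = ∫ E, I E ∂P := by
    rw [hI, integral_indicator_const _ hSm]
    simp
  have hG1 : Integrable (fun p : PEnv × (ℕ × ℕ) => Gd (Function.update p.1 x p.2)) (P.prod L) :=
    hmp.integrable_comp_of_integrable hGint
  have hI1 : Integrable (fun p : PEnv × (ℕ × ℕ) => I (Function.update p.1 x p.2)) (P.prod L) :=
    hmp.integrable_comp_of_integrable hIint
  have hG2 : ∫ E, Gd E ∂P = ∫ E, ∫ e, Gd (Function.update E x e) ∂L ∂P := by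
    rw [← integral_prod _ hG1]
    conv_lhs => rw [← hmp.map_eq]
    rw [integral_map hmp.measurable.aemeasurable]
    rw [hmp.map_eq]
    exact hGint.aestronglyMeasurable
  have hI2 : ∫ E, I E ∂P = ∫ E, ∫ e, I (Function.update E x e) ∂L ∂P := by
    rw [← integral_prod _ hI1]
    conv_lhs => rw [← hmp.map_eq]
    rw [integral_map hmp.measurable.aemeasurable]
    rw [hmp.map_eq]
    exact hIint.aestronglyMeasurable
  unfold Infx
  change q * (1 - q) * (1 - ρ x) * P.real S ≤ ∫ E, Gd E ∂P
  rw [hIeq, hI2, hG2, ← integral_const_mul]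
  refine integral_mono (hI1.integral_prod_left.const_mul _) hG1.integral_prod_left fun E => ?_
  simp only
  -- one configuration outside `x`
  set A := eA E with hA
  set B := eB E with hB
  set s := ss n x A hx with hs
  set s' := ss n x B hx with hs'
  set m := max s s' with hm
  obtain ⟨c1, c2, c3⟩ := cov_lower q hq0 hq1 hGMO s s' (uu n x A) (uu n x B)
  obtain ⟨c1', _, _⟩ := cov_lower q hq0 hq1 hGMO s' s (uu n x B) (uu n x A)
  set a : ℕ → ℝ := fun k => uu n x A + ((max s k : ℕ) : ℝ) with ha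
  set b : ℕ → ℝ := fun k => uu n x B + ((max s' k : ℕ) : ℝ) with hb
  have hfa : ∀ k, ff n (Function.update A x k) = a k := fun k => ff_eq A hx k
  have hfb : ∀ k, ff n (Function.update B x k) = b k := fun k => ff_eq B hx k
  have hDa : ∀ k, Dx q x (ff n) (Function.update A x k) = a k - ∫ l, a l ∂(geo q) := by
    intro k
    unfold Dx Ex
    simp only [Function.update_idem, hfa]
  have hDb : ∀ k, Dx q x (ff n) (Function.update B x k) = b k - ∫ l, b l ∂(geo q) := by
    intro k
    unfold Dx Ex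
    simp only [Function.update_idem, hfb]
  set αa := ∫ l, a l ∂(geo q) with hαa
  set αb := ∫ l, b l ∂(geo q) with hαb
  have hGe : ∀ e : ℕ × ℕ, Gd (Function.update E x e) = (a e.1 - αa) * (b e.2 - αb) := by
    intro e
    simp only [hGd]
    rw [eAu, eBu, hDa, hDb]
  have hIe : ∀ e : ℕ × ℕ, I (Function.update E x e) = if s ≤ e.1 ∧ s' ≤ e.2 then 1 else 0 := by
    intro e
    have hmem : Function.update E x e ∈ S ↔ (s ≤ e.1 ∧ s' ≤ e.2) := by
      change (OnGeo n (eA (Function.update E x e)) x ∧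
        OnGeo n (eB (Function.update E x e)) x) ↔ _
      rw [eAu, eBu, onGeo_iff _ hx, onGeo_iff _ hx]
    rw [hI, Set.indicator_apply]
    simp only [hmem]
  simp only [hGe, hIe]
  have ja : Integrable (fun k => a k - αa) (geo q) := c1.sub (integrable_const _)
  have jb : Integrable (fun k => b k - αb) (geo q) := c1'.sub (integrable_const _)
  have za : ∫ k, (a k - αa) ∂(geo q) = 0 := by
    rw [integral_sub c1 (integrable_const _)]
    simp [hαa]
  have jab : Integrable (fun k => (a k - αa) * (b k - αb)) (geo q) := by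
    have e : (fun k => (a k - αa) * (b k - αb)) =
        fun k => a k * b k - αa * b k - αb * (a k - αa) := by
      funext k; ring
    rw [e]
    exact (c2.sub (c1'.const_mul αa)).sub (ja.const_mul αb)
  have vab : ∫ k, (a k - αa) * (b k - αb) ∂(geo q) =
      ∫ k, a k * b k ∂(geo q) - αa * αb := by
    have e : (fun k => (a k - αa) * (b k - αb)) =
        fun k => a k * b k - αa * b k - αb * (a k - αa) := by
      funext k; ring
    have t1 : ∫ k, a k * b k - αa * b k - αb * (a k - αa) ∂(geo q) =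
        (∫ k, (a k * b k - αa * b k) ∂(geo q)) - ∫ k, αb * (a k - αa) ∂(geo q) :=
      integral_sub (c2.sub (c1'.const_mul αa)) (ja.const_mul αb)
    have t2 : ∫ k, (a k * b k - αa * b k) ∂(geo q) =
        (∫ k, a k * b k ∂(geo q)) - ∫ k, αa * b k ∂(geo q) :=
      integral_sub c2 (c1'.const_mul αa)
    rw [e, t1, t2, integral_const_mul, integral_const_mul, za]
    ring
  obtain ⟨p1, p2⟩ := hPLI q (ρ x) hρ.1 hρ.2 (fun e => (a e.1 - αa) * (b e.2 - αb)) jab
    (ja.mul_prod jb)
  rw [← hL] at p1 p2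
  rw [p2]
  simp only
  have t5 : ∫ e : ℕ × ℕ, (a e.1 - αa) * (b e.2 - αb) ∂((geo q).prod (geo q)) =
      (∫ k, (a k - αa) ∂(geo q)) * ∫ k, (b k - αb) ∂(geo q) :=
    integral_prod_mul (fun k => a k - αa) (fun k => b k - αb)
  rw [vab, t5, za, zero_mul, mul_zero, add_zero]
  -- the indicator
  have ji : ∀ s : ℕ, Integrable (fun k : ℕ => if s ≤ k then (1 : ℝ) else 0) (geo q) := by
    intro s
    refine Integrable.mono' (integrable_const (1 : ℝ))
      (measurable_of_countable _).aestronglyMeasurable (ae_of_all _ fun k => ?_)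
    split_ifs <;> simp
  have vi : ∀ s : ℕ, ∫ k : ℕ, (if s ≤ k then (1 : ℝ) else 0) ∂(geo q) = q ^ s := by
    intro s
    have e : (fun k : ℕ => if s ≤ k then (1 : ℝ) else 0) =
        Set.indicator {k : ℕ | s ≤ k} (fun _ => (1 : ℝ)) := by
      funext k
      simp only [Set.indicator_apply, Set.mem_ofPred_eq]
    rw [e, integral_indicator_const _ (MeasurableSet.of_discrete), smul_eq_mul, mul_one,
      Measure.real, Pool.Agent.H20.GL.GEO.tail_nat q hq0.le hq1,
      ENNReal.toReal_ofReal (by positivity)]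
  have ej : (fun e : ℕ × ℕ => if s ≤ e.1 ∧ s' ≤ e.2 then (1 : ℝ) else 0) =
      fun e : ℕ × ℕ => (if s ≤ e.1 then (1 : ℝ) else 0) * (if s' ≤ e.2 then (1 : ℝ) else 0) := by
    funext e
    by_cases h1 : s ≤ e.1 <;> by_cases h2 : s' ≤ e.2 <;> simp [h1, h2]
  have ejk : (fun k : ℕ => if s ≤ k ∧ s' ≤ k then (1 : ℝ) else 0) =
      fun k : ℕ => if m ≤ k then (1 : ℝ) else 0 := by
    funext k
    have : (s ≤ k ∧ s' ≤ k) ↔ m ≤ k := by rw [hm, max_le_iff]
    simp only [this]
  obtain ⟨r1, r2⟩ := hPLI q (ρ x) hρ.1 hρ.2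
    (fun e => if s ≤ e.1 ∧ s' ≤ e.2 then (1 : ℝ) else 0)
    (by simp only; rw [ejk]; exact ji m)
    (by rw [ej]; exact (ji s).mul_prod (ji s'))
  rw [← hL] at r1 r2
  rw [r2]
  simp only
  have t6 : ∫ e : ℕ × ℕ, (if s ≤ e.1 then (1 : ℝ) else 0) * (if s' ≤ e.2 then (1 : ℝ) else 0)
      ∂((geo q).prod (geo q)) = q ^ s * q ^ s' := by
    rw [← vi s, ← vi s']
    exact integral_prod_mul (fun k : ℕ => if s ≤ k then (1 : ℝ) else 0)
      (fun k : ℕ => if s' ≤ k then (1 : ℝ) else 0)
  rw [ejk, vi, ej, t6]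
  have hs0 : q ^ s * q ^ s' ≤ q ^ m := by
    rw [← pow_add]
    exact pow_le_pow_of_le_one hq0.le hq1.le (by rw [hm]; omega)
  have hb1 : (1 - ρ x) * q ^ m + ρ x * (q ^ s * q ^ s') ≤ q ^ m := by
    nlinarith [mul_le_mul_of_nonneg_left hs0 hρ.1]
  have h1ρ : 0 ≤ 1 - ρ x := by linarith [hρ.2]
  have hq1' : 0 ≤ 1 - q := by linarith
  calc q * (1 - q) * (1 - ρ x) * ((1 - ρ x) * q ^ m + ρ x * (q ^ s * q ^ s'))
      ≤ q * (1 - q) * (1 - ρ x) * q ^ m := by
        apply mul_le_mul_of_nonneg_left hb1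
        positivity
    _ = (1 - ρ x) * (q * (1 - q) * q ^ m) := by ring
    _ ≤ (1 - ρ x) * (∫ k, a k * b k ∂(geo q) - αa * αb) :=
        mul_le_mul_of_nonneg_left c3 h1ρ

end Pool.Agent.H10.NF.OVL
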