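import Pool.Agent.H97.NF.Targets
import Pool.Agent.H22.LPP.Prob

/-!
# Module QST: exact one-step formula for the covariance
-/

open MeasureTheory ProbabilityTheory Filter Topology
open scoped ENNReal

namespace Pool.Agent.H10.NF.QST

open Pool.Agent.H99.NS Pool.Agent.H22.LPP Pool.Agent.H97.NF

theorem measurable_eA : Measurable eA := by
  refine measurable_pi_lambda _ fun y => ?_
  exact measurable_fst.comp (measurable_pi_apply y)

theorem measurable_eB : Measurable eB := by
  refine measurable_pi_lambda _ fun y => ?_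
  exact measurable_snd.comp (measurable_pi_apply y)

theorem pairLaw_one (q : ℝ) : pairLaw q 1 = (geo q).prod (geo q) := by
  unfold pairLaw
  have h : cl 1 = 1 := by unfold cl; norm_num
  rw [h]
  simp

theorem pairLaw_fst (q s : ℝ) : (pairLaw q s).map Prod.fst = geo q := by
  unfold pairLaw
  rw [Measure.map_add _ _ measurable_fst, Measure.map_smul, Measure.map_smul,
    Measure.map_map measurable_fst (measurable_of_countable _), Measure.map_fst_prod]
  have e : (Prod.fst ∘ fun k : ℕ => (k, k)) = id := by funext k; rfl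
  rw [e, Measure.map_id, measure_univ, one_smul, ← add_smul,
    ← ENNReal.ofReal_add (by linarith [cl_le_one s]) (cl_nonneg s)]
  simp

theorem pairLaw_snd (q s : ℝ) : (pairLaw q s).map Prod.snd = geo q := by
  unfold pairLaw
  rw [Measure.map_add _ _ measurable_snd, Measure.map_smul, Measure.map_smul,
    Measure.map_map measurable_snd (measurable_of_countable _), Measure.map_snd_prod]
  have e : (Prod.snd ∘ fun k : ℕ => (k, k)) = id := by funext k; rfl
  rw [e, Measure.map_id, measure_univ, one_smul, ← add_smul,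
    ← ENNReal.ofReal_add (by linarith [cl_le_one s]) (cl_nonneg s)]
  simp

/-- Sitewise maps of two independent pairs of environments. -/
theorem mp_site (hZIP : T_ZIP) (q : ℝ) (ρ ρ' : Site → ℝ)
    (φ : Site → (ℕ × ℕ) × (ℕ × ℕ) → ℕ × ℕ)
    (hφ : ∀ x, ((pairLaw q (ρ x)).prod (pairLaw q (ρ x))).map (φ x) = pairLaw q (ρ' x)) :
    MeasurePreserving (fun (F : PEnv × PEnv) (x : Site) => φ x (F.1 x, F.2 x))
      ((PN q ρ).prod (PN q ρ)) (PN q ρ') := by
  have h1 := hZIP (ι := Site) (X := fun _ => ℕ × ℕ) (Y := fun _ => ℕ × ℕ)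
    (fun x => pairLaw q (ρ x)) (fun x => pairLaw q (ρ x))
  have hm : ∀ x, Measurable (φ x) := fun x => measurable_of_countable _
  have h2 : MeasurePreserving (fun (G : Site → (ℕ × ℕ) × (ℕ × ℕ)) (x : Site) => φ x (G x))
      (Measure.infinitePi (fun x => (pairLaw q (ρ x)).prod (pairLaw q (ρ x)))) (PN q ρ') := by
    refine ⟨measurable_pi_lambda _ fun x => (hm x).comp (measurable_pi_apply x), ?_⟩
    rw [Measure.infinitePi_map_pi _ hm]
    unfold PN
    congr 1
    funext x
    exact hφ x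
  exact h2.comp h1

theorem pf_QST (hZIP : T_ZIP) (hINT : T_INT) (hNIC : T_NIC) (hVVF : T_VVF) : T_QST := by
  classical
  intro q hq0 hq1 n ρ Q
  set P := PN q ρ with hP
  -- the four maps
  have m1 : MeasurePreserving (fun F : PEnv × PEnv => F.1) (P.prod P) P :=
    measurePreserving_fst
  have m4 : MeasurePreserving (fun F : PEnv × PEnv => glue Q F.1 F.2) (P.prod P) P := by
    have := mp_site hZIP q ρ ρ (fun x e => if x ∈ Q then e.2 else e.1) (fun x => by
      by_cases h : x ∈ Q
      · have e : (fun e : (ℕ × ℕ) × (ℕ × ℕ) => if x ∈ Q then e.2 else e.1) = Prod.snd := by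
          funext e; simp [h]
        rw [e, Measure.map_snd_prod, measure_univ, one_smul]
      · have e : (fun e : (ℕ × ℕ) × (ℕ × ℕ) => if x ∈ Q then e.2 else e.1) = Prod.fst := by
          funext e; simp [h]
        rw [e, Measure.map_fst_prod, measure_univ, one_smul])
    have e : (fun F : PEnv × PEnv => glue Q F.1 F.2) =
        fun (F : PEnv × PEnv) (x : Site) => if x ∈ Q then F.2 x else F.1 x := by
      funext F x
      unfold glue
      by_cases h : x ∈ Q <;> simp [h]
    rw [e]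
    exact this
  have hone : ∀ x, x ∈ Q → one Q ρ x = 1 := fun x h => by unfold one; rw [if_pos h]
  have hone' : ∀ x, x ∉ Q → one Q ρ x = ρ x := fun x h => by unfold one; rw [if_neg h]
  set M2 : PEnv × PEnv → PEnv := fun F x => if x ∈ Q then ((F.1 x).1, (F.2 x).2) else F.1 x
    with hM2
  have m2 : MeasurePreserving M2 (P.prod P) (PN q (one Q ρ)) := by
    refine mp_site hZIP q ρ (one Q ρ) (fun x e => if x ∈ Q then (e.1.1, e.2.2) else e.1)
      (fun x => ?_)
    by_cases h : x ∈ Q
    · have e : (fun e : (ℕ × ℕ) × (ℕ × ℕ) => if x ∈ Q then (e.1.1, e.2.2) else e.1) =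
          Prod.map Prod.fst Prod.snd := by
        funext e; simp only [h, if_true]; rfl
      rw [e, ← Measure.map_prod_map _ _ measurable_fst measurable_snd, pairLaw_fst, pairLaw_snd,
        hone x h, pairLaw_one]
    · have e : (fun e : (ℕ × ℕ) × (ℕ × ℕ) => if x ∈ Q then (e.1.1, e.2.2) else e.1) =
          Prod.fst := by
        funext e; simp [h]
      rw [e, Measure.map_fst_prod, measure_univ, one_smul, hone' x h]
  set M3 : PEnv × PEnv → PEnv := fun F x => if x ∈ Q then ((F.2 x).1, (F.1 x).2) else F.1 x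
    with hM3
  have m3 : MeasurePreserving M3 (P.prod P) (PN q (one Q ρ)) := by
    refine mp_site hZIP q ρ (one Q ρ) (fun x e => if x ∈ Q then (e.2.1, e.1.2) else e.1)
      (fun x => ?_)
    by_cases h : x ∈ Q
    · have e : (fun e : (ℕ × ℕ) × (ℕ × ℕ) => if x ∈ Q then (e.2.1, e.1.2) else e.1) =
          (Prod.map Prod.fst Prod.snd) ∘ Prod.swap := by
        funext e; simp only [h, if_true]; rfl
      rw [e, ← Measure.map_map (measurable_fst.prodMap measurable_snd) measurable_swap,
        Measure.prod_swap, ← Measure.map_prod_map _ _ measurable_fst measurable_snd,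
        pairLaw_fst, pairLaw_snd, hone x h, pairLaw_one]
    · have e : (fun e : (ℕ × ℕ) × (ℕ × ℕ) => if x ∈ Q then (e.2.1, e.1.2) else e.1) =
          Prod.fst := by
        funext e; simp [h]
      rw [e, Measure.map_fst_prod, measure_univ, one_smul, hone' x h]
  -- the environments of the mixed pairs
  have a2 : ∀ F, eA (M2 F) = eA F.1 := by
    intro F; funext x
    simp only [eA, hM2]
    split_ifs <;> rfl
  have b2 : ∀ F, eB (M2 F) = eB (glue Q F.1 F.2) := by
    intro F; funext x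
    simp only [eB, hM2, glue]
    split_ifs <;> rfl
  have a3 : ∀ F, eA (M3 F) = eA (glue Q F.1 F.2) := by
    intro F; funext x
    simp only [eA, hM3, glue]
    split_ifs <;> rfl
  have b3 : ∀ F, eB (M3 F) = eB F.1 := by
    intro F; funext x
    simp only [eB, hM3]
    split_ifs <;> rfl
  obtain ⟨_, _, _, _, _, _, nic7⟩ := hNIC
  have hI : ∀ ρ' : Site → ℝ, Integrable (fun E => ff n (eA E) * ff n (eB E)) (PN q ρ') :=
    fun ρ' => ((hINT q hq0 hq1 _ _ _ (nic7 n) (nic7 n)).1 ρ').1
  have comp : ∀ (ρ' : Site → ℝ) (M : PEnv × PEnv → PEnv),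
      MeasurePreserving M (P.prod P) (PN q ρ') →
      Integrable (fun F => ff n (eA (M F)) * ff n (eB (M F))) (P.prod P) ∧
      ∫ F, ff n (eA (M F)) * ff n (eB (M F)) ∂(P.prod P) = FF q (ff n) (ff n) ρ' := by
    intro ρ' M hM
    refine ⟨hM.integrable_comp_of_integrable (hI ρ'), ?_⟩
    unfold FF
    conv_rhs => rw [← hM.map_eq]
    rw [integral_map hM.measurable.aemeasurable]
    rw [hM.map_eq]
    exact (hI ρ').aestronglyMeasurable
  obtain ⟨i1, v1⟩ := comp ρ _ m1
  obtain ⟨i2, v2⟩ := comp (one Q ρ) _ m2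
  obtain ⟨i3, v3⟩ := comp (one Q ρ) _ m3
  obtain ⟨i4, v4⟩ := comp ρ _ m4
  simp only [a2, b2] at i2 v2
  simp only [a3, b3] at i3 v3
  have e0 : (fun F : PEnv × PEnv => (ff n (eA F.1) - ff n (eA (glue Q F.1 F.2))) *
      (ff n (eB F.1) - ff n (eB (glue Q F.1 F.2)))) =
      fun F => (ff n (eA F.1) * ff n (eB F.1) +
        ff n (eA (glue Q F.1 F.2)) * ff n (eB (glue Q F.1 F.2))) -
        (ff n (eA F.1) * ff n (eB (glue Q F.1 F.2)) +
        ff n (eA (glue Q F.1 F.2)) * ff n (eB F.1)) := by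
    funext F; ring
  have i0 : Integrable (fun F : PEnv × PEnv => (ff n (eA F.1) - ff n (eA (glue Q F.1 F.2))) *
      (ff n (eB F.1) - ff n (eB (glue Q F.1 F.2)))) (P.prod P) := by
    rw [e0]
    exact (i1.add i4).sub (i2.add i3)
  have v0 : ∫ F : PEnv × PEnv, (ff n (eA F.1) - ff n (eA (glue Q F.1 F.2))) *
      (ff n (eB F.1) - ff n (eB (glue Q F.1 F.2))) ∂(P.prod P) =
      2 * (FF q (ff n) (ff n) ρ - FF q (ff n) (ff n) (one Q ρ)) := by
    rw [e0]
    have t1 : ∫ F : PEnv × PEnv, ((ff n (eA F.1) * ff n (eB F.1) +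
        ff n (eA (glue Q F.1 F.2)) * ff n (eB (glue Q F.1 F.2))) -
        (ff n (eA F.1) * ff n (eB (glue Q F.1 F.2)) +
        ff n (eA (glue Q F.1 F.2)) * ff n (eB F.1))) ∂(P.prod P) =
        ∫ F : PEnv × PEnv, (ff n (eA F.1) * ff n (eB F.1) +
        ff n (eA (glue Q F.1 F.2)) * ff n (eB (glue Q F.1 F.2))) ∂(P.prod P) -
        ∫ F : PEnv × PEnv, (ff n (eA F.1) * ff n (eB (glue Q F.1 F.2)) +
        ff n (eA (glue Q F.1 F.2)) * ff n (eB F.1)) ∂(P.prod P) :=
      integral_sub (i1.add i4) (i2.add i3)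
    have t2 : ∫ F : PEnv × PEnv, (ff n (eA F.1) * ff n (eB F.1) +
        ff n (eA (glue Q F.1 F.2)) * ff n (eB (glue Q F.1 F.2))) ∂(P.prod P) = _ :=
      integral_add i1 i4
    have t3 : ∫ F : PEnv × PEnv, (ff n (eA F.1) * ff n (eB (glue Q F.1 F.2)) +
        ff n (eA (glue Q F.1 F.2)) * ff n (eB F.1)) ∂(P.prod P) = _ :=
      integral_add i2 i3
    rw [t1, t2, t3, v1, v2, v3, v4]
    ring
  have hV := (hVVF q hq0 hq1 n).1
  have main : VV q n ρ - VV q n (one Q ρ) =
      1 / 2 * ∫ F : PEnv × PEnv, (ff n (eA F.1) - ff n (eA (glue Q F.1 F.2))) *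
      (ff n (eB F.1) - ff n (eB (glue Q F.1 F.2))) ∂(P.prod P) := by
    rw [v0, hV ρ, hV (one Q ρ)]
    ring
  refine ⟨main, ?_⟩
  rw [main]
  have habs : (fun F : PEnv × PEnv => |ff n (eA F.1) - ff n (eA (glue Q F.1 F.2))| *
      |ff n (eB F.1) - ff n (eB (glue Q F.1 F.2))|) =
      fun F => |(ff n (eA F.1) - ff n (eA (glue Q F.1 F.2))) *
      (ff n (eB F.1) - ff n (eB (glue Q F.1 F.2)))| := by
    funext F
    rw [abs_mul]
  have hle : ∫ F : PEnv × PEnv, (ff n (eA F.1) - ff n (eA (glue Q F.1 F.2))) *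
      (ff n (eB F.1) - ff n (eB (glue Q F.1 F.2))) ∂(P.prod P) ≤ quad q n ρ Q := by
    unfold quad
    rw [habs]
    exact integral_mono i0 i0.abs fun F => le_abs_self _
  linarith

end Pool.Agent.H10.NF.QST
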